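import Pool.Agent.Lib.MP_b5021c_nt.IfaceAM
import Pool.Agent.Lib.MP_b5021c_nt.E.H07.Mxu

/-!
# MP_b5021c_nt, board b5, chapter AM, row AM_GL2: the drop is at most two (helper61)
-/

set_option linter.unusedSectionVars false

namespace Pool.Agent.B5.H61

open Pool.Agent.B5 Pool.Agent.B5.H63 Pool.Agent.B5.H07

section lattice

variable {L : Type} [AddCommGroup L] [Module.Free ℤ L] [Module.Finite ℤ L]

/-- a sublattice whose saturation is everything has full rank -/
theorem finrank_of_satur_top {K : Submodule ℤ L} (h : ∀ a : L, a ∈ satur K) :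
    Module.finrank ℤ K = Module.finrank ℤ L := by
  have h1 : satur K = ⊤ := by
    rw [eq_top_iff]
    exact fun a _ => h a
  rw [← finrank_satur K, h1, finrank_top]

/-- the rank of the span of `U` and of a family which is independent modulo `U` -/
theorem finrank_sup_of_li (U : Submodule ℤ L) {g : ℕ} (b : Fin g → L)
    (hli : LinearIndependent ℤ (fun i => U.mkQ (b i)))
    (hg : Module.finrank ℤ U + g = Module.finrank ℤ L) (K : Submodule ℤ L) (hUK : U ≤ K)
    (hb : ∀ i, b i ∈ K) : Module.finrank ℤ K = Module.finrank ℤ L := by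
  refine le_antisymm (Submodule.finrank_le K) ?_
  have hB := (Module.finBasis ℤ U).linearIndependent
  have h1 := LinearIndependent.sumElim_of_quotient hB b hli
  have h2 : ∀ x : Fin (Module.finrank ℤ U) ⊕ Fin g,
      Sum.elim (fun i => ((Module.finBasis ℤ U i : U) : L)) b x ∈ K := by
    rintro (i | i)
    · exact hUK (Module.finBasis ℤ U i).2
    · exact hb i
  have h3 : LinearIndependent ℤ (fun x : Fin (Module.finrank ℤ U) ⊕ Fin g =>
      (⟨Sum.elim (fun i => ((Module.finBasis ℤ U i : U) : L)) b x, h2 x⟩ : K)) :=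
    LinearIndependent.of_comp K.subtype h1
  have h4 := h3.fintype_card_le_finrank
  simp at h4
  omega

/-- two members of a family which is independent modulo `U` -/
theorem not_rel {U : Submodule ℤ L} {g : ℕ} {b : Fin g → L}
    (hli : LinearIndependent ℤ (fun i => U.mkQ (b i))) {i j : Fin g} (hij : i ≠ j) {n : ℤ}
    (hn : n ≠ 0) : n • b j ∉ U ⊔ Submodule.span ℤ {b i} := by
  intro h
  rw [Submodule.mem_sup] at h
  obtain ⟨u, hu, v, hv, huv⟩ := h
  rw [Submodule.mem_span_singleton] at hv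
  obtain ⟨m, rfl⟩ := hv
  have h1 : n • U.mkQ (b j) = m • U.mkQ (b i) := by
    rw [← map_smul, ← map_smul, ← sub_eq_zero, ← map_sub, ← huv, add_sub_cancel_right]
    exact (Submodule.Quotient.mk_eq_zero U).2 hu
  rw [Fintype.linearIndependent_iff] at hli
  have h2 := hli (fun k => (if k = j then n else 0) - (if k = i then m else 0)) (by
    simp only [sub_smul, Finset.sum_sub_distrib, ite_smul, zero_smul, Finset.sum_ite_eq',
      Finset.mem_univ, if_true]
    rw [h1, sub_self]) j
  simp only [if_true, if_neg hij.symm, sub_zero] at h2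
  exact hn h2

end lattice

/-- AM_GL2 -/
theorem glc_st (hU : UniKS) (hA : DuaS) (h3 : F3S) (hM : McoS) (hE : E2S) : GlcS := by
  intro O _ _ _ _ P L _ _ _ _ _ phi D eta g θ C hD hr hC hne
  obtain ⟨S, hS⟩ := hne
  by_contra hg
  have hg3 : 2 < g := not_le.1 hg
  classical
  have hdd : DD phi D := hD.fp.dd
  obtain ⟨hD0, -, -, -, hrk, -⟩ := hE O P L phi D hdd hr
  have hSr := hC.ray S hS
  obtain ⟨g', R, hR, hfr, hli⟩ := exists_basis_mod (US (eta S) S D) {b | Ray D b} hrk
  have hgg : g' = g := by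
    have := hC.dr S hS
    omega
  subst hgg
  have hnU : ∀ i, R i ∉ US (eta S) S D := fun i h =>
    hli.ne_zero i ((Submodule.Quotient.mk_eq_zero _).2 h)
  have hRC : ∀ i, R i ∈ C ∧ Mut D S (R i) (eta S) (eta (R i)) := fun i =>
    hC.mtl S hS (R i) (hR i) (hnU i)
  have hpair : ∀ i j, i ≠ j → R i + R j ∈ supp D := by
    intro i j hij
    have hF := h3 O P L phi D (R i) S (eta (R i)) (eta S) hdd.inj hdd.bin (hR i) hSr
      (hRC i).2.m1
    have hj : R j ∉ US (eta (R i)) (R i) D := by
      intro h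
      obtain ⟨n, hn, h2⟩ := hF h
      exact not_rel hli hij hn h2
    have hm := (hC.mtl (R i) (hRC i).1 (R j) (hR j) hj).2
    have h4 := (hM O P L phi D (R i) (R j) (eta (R i)) (eta (R j)) hdd.inj hdd.bin hm).2.2.1
    intro h5
    have h5' : D.coeff (R i + R j) = 0 := h5
    rw [h5', mul_zero, eq_comm, neg_eq_zero] at h4
    have h6 : D.coeff (R i) = 0 := by
      rcases mul_eq_zero.1 h4 with h | h
      · exact absurd h (eta (R i)).ne_zero
      · exact h
    exact (hR i).1 h6
  have hLU : LamS (eta S) S D ≤ US (eta S) S D := le_satur _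
  -- first lattice
  have hT1 : Set.range R ⊆ supp D := by
    rintro _ ⟨i, rfl⟩
    exact (hR i).1
  have hf1 : Module.finrank ℤ (US (eta S) S D ⊔ Submodule.span ℤ (Set.range R) :
      Submodule ℤ L) = Module.finrank ℤ L :=
    finrank_sup_of_li _ R hli hfr _ le_sup_left fun i =>
      (le_sup_right : Submodule.span ℤ (Set.range R) ≤ _) (Submodule.subset_span ⟨i, rfl⟩)
  have hu1 := hU O P L phi D S (eta S) θ (Set.range R) hD hr hSr (hC.v0 S hS) (hC.ns S hS)
    hT1 hf1
  have hfl : Module.finrank ℤ (LamS (eta S) S D) + g' = Module.finrank ℤ L := by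
    rw [← hfr]
    congr 1
    exact (finrank_satur _).symm
  obtain ⟨-, mu, hmu, hker⟩ := hA L (LamS (eta S) S D) g' R hfl hu1
  let i0 : Fin g' := ⟨0, by omega⟩
  let i1 : Fin g' := ⟨1, by omega⟩
  let i2 : Fin g' := ⟨2, hg3⟩
  have h01 : i0 ≠ i1 := by simp [i0, i1]
  have h02 : i0 ≠ i2 := by simp [i0, i2]
  have h12 : i1 ≠ i2 := by simp [i1, i2]
  set nu : L →+ ℤ := mu i0 + mu i1 + mu i2 with hnu
  have hnuR : ∀ j, nu (R j) = (if i0 = j then 1 else 0) + (if i1 = j then 1 else 0) +
      (if i2 = j then 1 else 0) := by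
    intro j
    rw [hnu, AddMonoidHom.add_apply, AddMonoidHom.add_apply, hmu, hmu, hmu]
  have hn0 : nu (R i0) = 1 := by
    rw [hnuR, if_pos rfl, if_neg h01.symm, if_neg h02.symm]; rfl
  have hn1 : nu (R i1) = 1 := by
    rw [hnuR, if_neg h01, if_pos rfl, if_neg h12.symm]; rfl
  have hn2 : nu (R i2) = 1 := by
    rw [hnuR, if_neg h02, if_neg h12, if_pos rfl]; rfl
  -- second lattice
  set T2 : Set L := {a | a ∈ supp D ∧ (2 : ℤ) ∣ nu a} with hT2
  have hp01 : R i0 + R i1 ∈ T2 := ⟨hpair _ _ h01, by rw [map_add, hn0, hn1]; exact ⟨1, rfl⟩⟩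
  have hp02 : R i0 + R i2 ∈ T2 := ⟨hpair _ _ h02, by rw [map_add, hn0, hn2]; exact ⟨1, rfl⟩⟩
  have hp12 : R i1 + R i2 ∈ T2 := ⟨hpair _ _ h12, by rw [map_add, hn1, hn2]; exact ⟨1, rfl⟩⟩
  set K2 : Submodule ℤ L := US (eta S) S D ⊔ Submodule.span ℤ T2 with hK2
  have hin : ∀ a ∈ T2, a ∈ K2 := fun a ha =>
    (le_sup_right : Submodule.span ℤ T2 ≤ _) (Submodule.subset_span ha)
  have hRs : ∀ j, R j ∈ satur K2 := by
    intro j
    by_cases h0 : i0 = j
    · subst h0
      refine ⟨2, two_ne_zero, ?_⟩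
      have : (2 : ℤ) • R i0 = (R i0 + R i1) + (R i0 + R i2) - (R i1 + R i2) := by
        rw [two_smul]; abel
      rw [this]
      exact K2.sub_mem (K2.add_mem (hin _ hp01) (hin _ hp02)) (hin _ hp12)
    by_cases h1 : i1 = j
    · subst h1
      refine ⟨2, two_ne_zero, ?_⟩
      have : (2 : ℤ) • R i1 = (R i0 + R i1) + (R i1 + R i2) - (R i0 + R i2) := by
        rw [two_smul]; abel
      rw [this]
      exact K2.sub_mem (K2.add_mem (hin _ hp01) (hin _ hp12)) (hin _ hp02)
    by_cases h2 : i2 = j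
    · subst h2
      refine ⟨2, two_ne_zero, ?_⟩
      have : (2 : ℤ) • R i2 = (R i0 + R i2) + (R i1 + R i2) - (R i0 + R i1) := by
        rw [two_smul]; abel
      rw [this]
      exact K2.sub_mem (K2.add_mem (hin _ hp02) (hin _ hp12)) (hin _ hp01)
    refine le_satur _ (hin _ ⟨(hR j).1, ?_⟩)
    rw [hnuR, if_neg h0, if_neg h1, if_neg h2]
    exact ⟨0, rfl⟩
  have hall : ∀ a : L, a ∈ satur K2 := by
    have h5 : LamS (eta S) S D ⊔ Submodule.span ℤ (Set.range R) ≤ satur K2 := by
      refine sup_le (hLU.trans (le_sup_left.trans (le_satur K2))) ?_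
      rw [Submodule.span_le]
      rintro _ ⟨j, rfl⟩
      exact hRs j
    intro a
    rw [hu1] at h5
    exact h5 Submodule.mem_top
  have hu2 := hU O P L phi D S (eta S) θ T2 hD hr hSr (hC.v0 S hS) (hC.ns S hS)
    (fun a ha => ha.1) (finrank_of_satur_top hall)
  -- `nu` is even on it
  have hev : ∀ a : L, (2 : ℤ) ∣ nu a := by
    have h6 : LamS (eta S) S D ⊔ Submodule.span ℤ T2 ≤
        (Submodule.span ℤ {(2 : ℤ)}).comap nu.toIntLinearMap := by
      refine sup_le ?_ ?_
      · intro a ha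
        rw [hker] at ha
        rw [Submodule.mem_comap]
        have : nu a = 0 := by
          rw [hnu, AddMonoidHom.add_apply, AddMonoidHom.add_apply, ha, ha, ha]; rfl
        change nu a ∈ _
        rw [this]
        exact Submodule.zero_mem _
      · rw [Submodule.span_le]
        rintro a ⟨-, h⟩
        exact Ideal.mem_span_singleton.2 h
    intro a
    rw [hu2] at h6
    exact Ideal.mem_span_singleton.1 (h6 (Submodule.mem_top (x := a)))
  have h7 := hev (R i0)
  rw [hn0] at h7
  omega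

end Pool.Agent.B5.H61
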